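import Pool.Agent.R937.JC.B

/-!
# MP_b685ef_ag: Jordan blocks of Frobenius on complete varieties: weights, dimensions, outer degrees

Let `X` be a complete variety of dimension at most `d` over a field with `q` elements.

* If Frobenius has a Jordan block of size at least two for the eigenvalue `μ` on `H^i(X)` then there are
  a number `b` with `2 ≤ b ≤ i` and `b ≥ 2 (i - d) + 2`, and a smooth projective variety `S` of
  dimension at most `d - (i - b)`, such that Frobenius has a Jordan block of size at least two for `μ`
  on `H^b(S)`.
* So Frobenius is semisimple on `H^i(X)` if `i ≤ 1` or `i ≥ 2 d - 1`. In particular Q1 holds for all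
  complete curves, and for a complete surface the only possible Jordan blocks are on the part of weight
  two of `H^2(X)`.

Formulation. The cohomology of `X` is given with the operation of Frobenius and the weight filtration
(`CompleteVariety`). The graded piece of weight `b` of `H^i(X)` is a subquotient of the cohomology
`H^b` of smooth projective varieties of dimension at most `d - (i - b)`; this is the theorem on the
weight complex (Gillet, Soulé) which follows from the theorem of de Jong on equivariant alterations.
`IsPure` are the theorems of Deligne (different degrees have different eigenvalues) and of Weil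
(semisimplicity on `H^1`) for smooth projective varieties. Frobenius on smooth projective varieties is a
natural family of endomorphisms of the Weil cohomology `W`.
-/

open CategoryTheory AlgebraicGeometry

universe u v w

namespace Pool.Agent.Results.MP_b685ef_ag.OuterDegrees

open Pool.Agent.H914 Pool.Agent.R937.JB Pool.Agent.R937.JC VarClass Obj WeilCohomology

variable {k : Type u} [Field k] {𝒱 : VarClass k} {ops : CycleOps 𝒱}

/-- **Jordan blocks of Frobenius on complete varieties.** -/
theorem result (W : WeilCohomology.{u, v} ops) [IsAlgClosed W.K] (q : ℕ) (F : Frobenius W q)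
    (hF : IsPure F) (d : ℕ) (X : CompleteVariety.{u, v, w} F d) (i : ℕ) :
    (∀ μ, ¬ BlocksAtMost (X.coh.φ i) ⊤ μ 1 → ∃ (b : ℕ) (S : 𝒱.Obj),
      2 ≤ b ∧ b ≤ i ∧ 2 * i + 2 ≤ b + 2 * d ∧ S.dim + i ≤ d + b ∧ HasBlock F S b μ) ∧
    (i ≤ 1 ∨ 2 * d ≤ i + 1 → (X.coh.φ i).IsSemisimple) :=
  ⟨fun _ h => locate hF X h, fun h => semisimple_outer hF X h⟩

end Pool.Agent.Results.MP_b685ef_ag.OuterDegrees
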