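import Pool.Agent.R908.SS.FrobElem

/-!
# Semisimplicity of Frobenius for complete varieties and reducible quartic hypersurfaces

`E` is an algebraically closed field of characteristic zero (an algebraic closure of `ℚ_ℓ`). For every
finite field `k`, `(T k).H X f n` is the `ℓ`-adic cohomology with compact supports `H^n_c(X)` of the
scheme `X` over `k`, with the Frobenius of `k`; `S k` is the class of the smooth projective schemes and
`C k` the class of the complete (proper) schemes over `k`. For every finite set `σ`, `M.P k σ` is a
smooth projective compactification of the affine space `𝔸^σ` over `k`; we take the projective space. Let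
`F` be a polynomial of degree at most three such that `J = {F = 0} ⊆ 𝔸^σ` is smooth. Then the closed
subschemes `D` of the projective space with complement `{F ≠ 0} ⊆ 𝔸^σ` (the condition `IsBoundary`)
are the union of the hyperplane at infinity and of the closure of `J`: projective **hypersurfaces of
degree at most four**, with the equation `t F^h = 0`. Let `p` be a prime number.

A finite family `g = (g_1, …, g_m)` of polynomials over `𝔽_p` in the variables `x_1, …, x_N` is
*elementary* if each `g_k` is of one of the forms `x_a x_b - x_c`, `x_a + x_b - x_c`, `x_a - 1`. The
hypersurface `J_g : F_g = 0`, `F_g = y_1 g_1(x) + … + y_m g_m(x) - 1`, in the affine space of dimension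
`N + m` over `𝔽_p` is smooth of degree at most three (`IsElementary.isSmoothCubic`). Let `D_g` be the
corresponding projective quartic hypersurface `t F_g^h = 0` over `𝔽_p`.

**Theorem.** The following are equivalent:

1. for all finite fields `k` of characteristic `p` and all complete schemes `X` over `k`, Frobenius
   acts semisimply on `H^n(X)`, for all `n`;
2. for all finite fields `k` of characteristic `p` and all these hypersurfaces `D` over `k`, of
   dimension `d`, Frobenius has no Jordan block of size at least two with an eigenvalue of weight
   `d - 1` on the middle cohomology `H^d(D)`;
3. for all elementary families `g` over `𝔽_p` and all `n`, Frobenius has no Jordan block of size at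
   least two with an eigenvalue of weight `n - 1` on `H^n(D_g)`.

So the problem for all complete varieties over the finite fields of characteristic `p` is equivalent
to the one for an explicit countable family of projective hypersurfaces of degree at most four over
`𝔽_p`, which contain a hyperplane and are smooth outside of it.

The properties of `ℓ`-adic cohomology which are used are listed in `FrobTheory` and `LongExact`, the ones
of the class of complete schemes in `IsCompleteClass` (it contains the smooth projective schemes and their
closed subschemes). See `MP_93fb11_ag` (`AffineCubics`) for `FrobTheory`: exact sequences and affine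
bundles, Artin vanishing and weak Lefschetz for smooth affine cubic hypersurfaces, Deligne's theorem and
the weight filtration, Jouanolou's trick, restriction of the base field. By the theorem there it is enough
to consider the eigenvalues of weight `n - 1` on `H^n_c(J)`. Let `W = {F ≠ 0}`. As `H^n(P)` and
`H^(n+1)(P)` have no eigenvalues of weight `n - 1`, this part of `H^n(D)` is the one of `H^(n+1)_c(W)`,
which contains the one of `H^n_c(J)`. For `3` one uses presentations by elementary relations instead of
quadratic ones (write the equations over `𝔽_p` as straight-line programs).
-/

set_option autoImplicit false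

open AlgebraicGeometry CategoryTheory Pool.Agent.R904.CU Pool.Agent.R908.SS

namespace Pool.Agent.Results.MP_b685ef_ag.QuarticHypersurfaces

/-- The following are equivalent: (1) Frobenius is semisimple on the cohomology of all complete schemes
over all finite fields `k` of characteristic `p`; (2) for the boundaries `D` of the complements of
smooth affine cubic hypersurfaces over these `k`, Frobenius has no Jordan blocks of weight `d - 1` on
`H^d(D)`, `d = dim D`; (3) for the boundaries `D` of the complements of the hypersurfaces
`J_g : ∑ yₖ gₖ(x) = 1` over `𝔽_p`, `g` elementary, it has no Jordan blocks of weight `n - 1` on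
`H^n(D)`. -/
theorem result (E : Type) [Field E] [CharZero E] [IsAlgClosed E] (T : FrobOverFields E)
    (S C : ∀ (k : Type) [Field k], SchProp k) (hT : FrobTheory T S)
    (hX : ∀ (k : Type) [Field k] [Finite k], (T k).LongExact) (hC : IsCompleteClass S C)
    (M : Compactifications S) (p : ℕ) [Fact p.Prime] :
    [∀ (k : Type) [Field k] [Finite k] [Algebra (ZMod p) k] (X : Scheme.{0})
       (f : X ⟶ Spec (.of k)), C k X f → ∀ n : ℤ, ((T k).H X f n).Semisimple,
     ∀ (k : Type) [Field k] [Finite k] [Algebra (ZMod p) k] (σ : Type) [Fintype σ] (d : ℕ),
       Fintype.card σ = d + 1 → ∀ F : MvPolynomial σ k, IsSmoothCubic F →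
       ∀ (D : Scheme.{0}) (i : D ⟶ M.P k σ), M.IsBoundary F i →
       ((T k).H D (i ≫ M.p k σ) d).NoBlocks (Nat.card k) (d - 1),
     ∀ (σ κ : Type) [Fintype σ] [Fintype κ] (g : κ → MvPolynomial σ (ZMod p)),
       IsElementary g → ∀ (D : Scheme.{0}) (i : D ⟶ M.P (ZMod p) (κ ⊕ σ)),
       M.IsBoundary (bigPoly g) i → ∀ n : ℤ,
       ((T (ZMod p)).H D (i ≫ M.p (ZMod p) (κ ⊕ σ)) n).NoBlocks p (n - 1)].TFAE :=
  complete_tfae_elem hT p hX hC M

end Pool.Agent.Results.MP_b685ef_ag.QuarticHypersurfaces
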