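import Pool.Agent.R940.RtK

/-!
# MP_b685ef_ag: the square root law for Tate classes on powers

Let `k` be a field with `q` elements, `X` a smooth projective variety of dimension `d` over `k`,
`b = dim H(X)`. For `n ≥ 1` (`n = m + 1` below) let `t(n)` be the dimension of the eigenspace, and
`r(n)` the dimension of the generalised eigenspace, of Frobenius on the cohomology of the product
`X ^ (2 n)` of `2 n` copies of `X` for the eigenvalue `q ^ (n d)`: by Deligne's theorem `t(n)` is the
dimension of the space of Tate classes in the middle cohomology and `r(n)` is the order of the pole of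
the zeta function of `X ^ (2 n)` at `s = n d`.

* If Frobenius does not act semisimply on `H(X)`, then `t(n) < (4 b ^ 2 / √n) r(n)` for **all** `n`:
  the proportion of the Tate classes in the generalised eigenspace tends to zero.
* If Frobenius acts semisimply on `H(X)`, then `t(n) = r(n)` for all `n`.
* Frobenius acts semisimply on the cohomology of all complete varieties over `k` (Q1 for `k`) if and
  only if for every smooth projective variety `V` there is one `n` with
  `t(n) ≥ (4 b ^ 2 / √n) r(n)`.

So a positive proportion of the expected number of Tate classes (for example of algebraic classes) on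
the powers of `V`, or even only more than `4 b ^ 2 / √n` of it for one `n`, implies semisimplicity.

Formulation. The Weil cohomology and the varieties are those of the starting files; `F` are the natural
Frobenius endomorphisms. `C` is the class of the complete varieties, which contains the smooth
projective ones (`hC`), with the operation of Frobenius and the weight filtration
(`CompleteVariety`), whose piece of weight `b` on `H^i(X)` is a subquotient of the cohomology `H^b` of
smooth projective varieties (de Jong, Gillet, Soulé). `IsPure` are the theorems of Deligne and of Weil.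
-/

open CategoryTheory AlgebraicGeometry

universe u v w x

namespace Pool.Agent.Results.MP_b685ef_ag.SquareRootLaw

open Pool.Agent.H914 Pool.Agent.R937.JB Pool.Agent.R937.JC Pool.Agent.R940.Rt VarClass Obj
  WeilCohomology

variable {k : Type u} [Field k] {𝒱 : VarClass k} {ops : CycleOps 𝒱}

/-- **The square root law for Tate classes on powers and Q1 for complete varieties.** -/
theorem result (W : WeilCohomology.{u, v} ops) [IsAlgClosed W.K] (q : ℕ) (F : Frobenius W q) :
    (∀ X : 𝒱.Obj, ¬ FrobSemisimple F X → ∀ m : ℕ,
      Real.sqrt ((m : ℝ) + 1) * (tateDim F X m : ℝ) <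
        4 * (betti F X : ℝ) ^ 2 * (poleOrd F X m : ℝ)) ∧
    (∀ X : 𝒱.Obj, FrobSemisimple F X → ∀ m : ℕ, tateDim F X m = poleOrd F X m) ∧
    (IsPure F → ∀ (C : Type x) (dimC : C → ℕ)
      (var : ∀ X : C, CompleteVariety.{u, v, w} F (dimC X)),
      (∀ V : 𝒱.Obj, ∃ X : C, IsSmoothModel (var X) V) →
      ((∀ (X : C) (i : ℕ), ((var X).coh.φ i).IsSemisimple) ↔ ∀ V : 𝒱.Obj, ∃ m : ℕ,
        4 * (betti F V : ℝ) ^ 2 * (poleOrd F V m : ℝ) ≤
          Real.sqrt ((m : ℝ) + 1) * (tateDim F V m : ℝ))) :=
  ⟨fun _ hX m => sqrt_law hX m, fun _ hX m => tate_eq_pole hX m,
    fun hF _ _ var hC => complete_law hF var hC⟩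

end Pool.Agent.Results.MP_b685ef_ag.SquareRootLaw
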