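import Pool.Agent.R937.JC.B

/-!
# MP_b685ef_ag: sublinear bounds for Jordan blocks of one eigenvalue and complete varieties

Let `k` be a field with `q` elements. The following are equivalent:

* Frobenius acts semisimply on `H^i(X)` for all complete varieties `X` over `k` and all `i` (Q1 for `k`);
* for every smooth projective variety `V` of even dimension `2 j` the Jordan blocks of Frobenius on
  the middle cohomology `H^(2j)(V)` for the one eigenvalue `q ^ j` have size at most two;
* there is a function `b` with `b(j) / j → 0` such that for every smooth projective variety `V` of
  dimension `2 j` the Jordan blocks of Frobenius on `H^(2j)(V)` for `q ^ j` have size at most `b(j)`.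

So a counterexample to Q1 (on any singular complete variety, in any degree, for any eigenvalue) gives
smooth projective varieties of dimension `2 j` with Jordan blocks of size at least `c j`, `c > 0`, for
`q ^ j` on the middle cohomology.

Formulation. `C` is the class of complete varieties over `k`; it contains the smooth projective
varieties (`hC`). The cohomology of `X` is given with the operation of Frobenius and the weight
filtration (`CompleteVariety`), whose piece of weight `b` on `H^i(X)` is a subquotient of the cohomology
`H^b` of smooth projective varieties (de Jong, Gillet, Soulé). `IsPure` are the theorems of Deligne and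
of Weil. Known before: semisimplicity for smooth projective varieties implies it for complete ones, and
for a smooth projective variety `V` it follows from the semisimplicity of the eigenvalue
`q ^ (dim V)` on `V × V`.
-/

open CategoryTheory AlgebraicGeometry

universe u v w x

namespace Pool.Agent.Results.MP_b685ef_ag.SublinearBlocks

open Pool.Agent.H914 Pool.Agent.R937.JB Pool.Agent.R937.JC VarClass Obj WeilCohomology

variable {k : Type u} [Field k] {𝒱 : VarClass k} {ops : CycleOps 𝒱}

/-- **Sublinear bounds for Jordan blocks and complete varieties.** -/
theorem result (W : WeilCohomology.{u, v} ops) [IsAlgClosed W.K] (q : ℕ) (F : Frobenius W q)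
    (hF : IsPure F) (C : Type x) (dimC : C → ℕ)
    (var : ∀ X : C, CompleteVariety.{u, v, w} F (dimC X))
    (hC : ∀ V : 𝒱.Obj, ∃ X : C, IsSmoothModel (var X) V) :
    List.TFAE [∀ (X : C) (i : ℕ), ((var X).coh.φ i).IsSemisimple,
      ∀ (V : 𝒱.Obj) (j : ℕ), V.dim = 2 * j → TateBlocks F V j 2,
      ∃ b : ℕ → ℕ, (∀ c : ℕ, ∃ N, ∀ n ≥ N, c * b n ≤ n) ∧
        ∀ (V : 𝒱.Obj) (j : ℕ), V.dim = 2 * j → TateBlocks F V j (b j)] :=
  complete_tfae hF var hC

end Pool.Agent.Results.MP_b685ef_ag.SublinearBlocks
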